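import Pool.Agent.Lib.MP_1f96ff_gt.Top
import Pool.Agent.Lib.MP_1f96ff_gt.K.Inst
import Pool.Agent.Lib.MP_1f96ff_gt.K.Roots
import Pool.Agent.Lib.MP_1f96ff_gt.Ck.All
import Pool.Agent.Lib.MP_1f96ff_gt.Ck.R8
import Pool.Agent.Lib.MP_1f96ff_gt.Ck.R9
import Pool.Agent.Lib.MP_1f96ff_gt.Ck.R10
import Pool.Agent.Lib.MP_1f96ff_gt.Ck.R11
import Pool.Agent.Lib.MP_1f96ff_gt.Ck.R12
import Pool.Agent.Lib.MP_1f96ff_gt.Ck.R13

/-! The least number of vertices that forces a graph or its complement to be intrinsically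
knotted is 13. -/

open Pool.Agent.Lib.MP_1f96ff_gt

theorem Pool.Agent.Results.MP_1f96ff_gt.VIK.result :
    IsLeast {n : ℕ | ∀ G : SimpleGraph (Fin n), IK G ∨ IK Gᶜ} 13 :=
  threshold_of (Ck.all K.ki K.rootList (by decide +kernel) K.roots
    Ck.rng8 Ck.rng9 Ck.rng10 Ck.rng11 Ck.rng12 Ck.rng13)
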